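import Pool.Agent.Helper45.SD.Goals
import Pool.Agent.Helper51.SS.Gen

set_option autoImplicit false

/-!
Packet EV of MP_9415b6_co: the elementary symmetric functions of the character values.
-/

open Finset Polynomial Pool.Agent.Helper45.SD Pool.Agent.Helper51.SS

namespace Pool.Agent.Helper86.SD

theorem psi_natCast (n : ℕ) [NeZero n] (a : ZMod n) (i : ℕ) :
    psi n (a * (i : ZMod n)) = psi n a ^ i := by
  unfold psi
  rw [mul_comm, ← nsmul_eq_mul, AddChar.map_nsmul_eq_pow]

theorem psi_sum (n : ℕ) [NeZero n] (a : ZMod n) (T : Finset (ZMod n)) :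
    psi n (a * ∑ z ∈ T, z) = ∏ z ∈ T, psi n (a * z) := by
  classical
  unfold psi
  induction T using Finset.induction_on with
  | empty => simp
  | insert z T hz ih =>
    rw [Finset.sum_insert hz, Finset.prod_insert hz, mul_add, AddChar.map_add_eq_mul, ih]

theorem psi_prim (n : ℕ) [NeZero n] (a : ZMod n) :
    IsPrimitiveRoot (psi n a) (addOrderOf a) := by
  have hiff : ∀ l : ℕ, psi n a ^ l = 1 ↔ l • a = 0 := by
    intro l
    rw [← psi_natCast]
    unfold psi
    rw [← (ZMod.stdAddChar (N := n)).map_zero_eq_one, (ZMod.injective_stdAddChar (N := n)).eq_iff,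
      mul_comm, nsmul_eq_mul]
  refine ⟨(hiff _).2 (addOrderOf_nsmul_eq_zero a), fun l hl => ?_⟩
  exact addOrderOf_dvd_iff_nsmul_eq_zero.2 ((hiff l).1 hl)

/-- `∏_{i < s} (1 - ζ^i X) = 1 - X^s` for a primitive `s`-th root of unity. -/
theorem prod_range_prim (ζ : ℂ) (s : ℕ) (hs : 0 < s) (h : IsPrimitiveRoot ζ s) :
    ∏ i ∈ range s, (1 - C (ζ ^ i) * X) = (1 - X ^ s : ℂ[X]) := by
  have h' : IsPrimitiveRoot (C ζ : ℂ[X]) s := h.map_of_injective (f := (C : ℂ →+* ℂ[X])) C_injective
  have h1 := h'.pow_sub_pow_eq_prod_sub_mul (1 : ℂ[X]) X hs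
  rw [one_pow] at h1
  rw [h1]
  symm
  have himg : nthRootsFinset s (1 : ℂ[X]) = (range s).image (fun i => (C ζ : ℂ[X]) ^ i) := by
    symm
    apply Finset.eq_of_subset_of_card_le
    · intro x hx
      rw [Finset.mem_image] at hx
      obtain ⟨i, -, rfl⟩ := hx
      rw [mem_nthRootsFinset hs]
      rw [← pow_mul, mul_comm, pow_mul, h'.pow_eq_one, one_pow]
    · rw [h'.card_nthRootsFinset, Finset.card_image_of_injOn, Finset.card_range]
      intro i hi j hj hij
      exact h'.pow_inj (Finset.mem_range.1 hi) (Finset.mem_range.1 hj) hij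
  rw [himg, Finset.prod_image]
  · simp
  · intro i hi j hj hij
    exact h'.pow_inj (Finset.mem_range.1 hi) (Finset.mem_range.1 hj) hij

theorem coeff_one_sub_X_pow' (N m : ℕ) :
    ((1 - X : ℂ[X]) ^ N).coeff m = (-1) ^ m * (N.choose m : ℂ) := by
  have h := coeff_prod_one_sub (R := ℂ) (range N) (fun _ => (1 : ℂ)) m
  simp only [map_one, one_mul, Finset.prod_const, Finset.card_range, one_pow,
    Finset.sum_const, Finset.card_powersetCard, nsmul_eq_mul, mul_one] at h
  exact h

theorem coeff_geom (N s t : ℕ) (hs : 0 < s) :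
    ((∑ i ∈ range s, X ^ i) * (1 - X ^ s : ℂ[X]) ^ N).coeff t =
      (-1) ^ (t / s) * (N.choose (t / s) : ℂ) := by
  have he : (1 - X ^ s : ℂ[X]) ^ N = expand ℂ s ((1 - X) ^ N) := by
    rw [map_pow, map_sub, map_one, expand_X]
  rw [he, Finset.sum_mul, Polynomial.finsetSum_coeff]
  have hlt : t % s < s := Nat.mod_lt _ hs
  rw [Finset.sum_eq_single (t % s)]
  · rw [Polynomial.coeff_X_pow_mul', if_pos (Nat.mod_le t s), Polynomial.coeff_expand hs]
    have hd : s ∣ t - t % s := Nat.dvd_sub_mod t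
    have hq : (t - t % s) / s = t / s := by
      have h1 := Nat.div_add_mod t s
      have h2 : t - t % s = s * (t / s) := by omega
      rw [h2, Nat.mul_div_cancel_left _ hs]
    rw [if_pos hd, hq, coeff_one_sub_X_pow']
  · intro i hi hne
    rw [Polynomial.coeff_X_pow_mul']
    split_ifs with hle
    · rw [Polynomial.coeff_expand hs, if_neg]
      intro hd
      apply hne
      have h1 : t ≡ i [MOD s] := ((Nat.modEq_iff_dvd' hle).2 hd).symm
      have h2 : t % s = i % s := h1
      rw [h2, Nat.mod_eq_of_lt (Finset.mem_range.1 hi)]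
    · rfl
  · intro h
    exact absurd (Finset.mem_range.2 hlt) h

theorem prod_univ_range {M : Type*} [CommMonoid M] (n : ℕ) [NeZero n] (f : ZMod n → M) :
    ∏ z : ZMod n, f z = ∏ i ∈ range n, f (i : ZMod n) := by
  symm
  refine Finset.prod_nbij' (fun i => (i : ZMod n)) (fun z => z.val) ?_ ?_ ?_ ?_ ?_
  · intro i _; exact Finset.mem_univ _
  · intro z _; exact Finset.mem_range.2 (ZMod.val_lt z)
  · intro i hi; exact ZMod.val_cast_of_lt (Finset.mem_range.1 hi)
  · intro z _; exact ZMod.natCast_zmod_val z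
  · intro i _; rfl

theorem ev : G_EV := by
  classical
  intro n _ t a
  set s := addOrderOf a with hs
  have hn : 0 < n := Nat.pos_of_ne_zero (NeZero.ne n)
  have hspos : 0 < s := addOrderOf_pos a
  have hsn : s ∣ n := by
    have := addOrderOf_dvd_card (x := a)
    rwa [ZMod.card] at this
  have hN : 0 < n / s := Nat.div_pos (Nat.le_of_dvd hn hsn) hspos
  have hprod : ∏ z : ZMod n, (1 - C (psi n (a * z)) * X) = (1 - X ^ s : ℂ[X]) ^ (n / s) := by
    rw [prod_univ_range]
    have h1 : ∀ i ∈ range n, (1 - C (psi n (a * (i : ZMod n))) * X : ℂ[X]) =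
        (fun i => 1 - C (psi n a ^ i) * X) i := by
      intro i _
      rw [psi_natCast]
    rw [Finset.prod_congr rfl h1]
    have h2 : range n = range (s * (n / s)) := by rw [Nat.mul_div_cancel' hsn]
    rw [h2, prod_range_periodic, prod_range_prim _ s hspos (psi_prim n a)]
    intro i
    rw [pow_add, (psi_prim n a).pow_eq_one, mul_one]
  have hsplit : ∏ z : ZMod n, (1 - C (psi n (a * z)) * X) =
      (1 - X) * ∏ z ∈ Finset.univ.erase (0 : ZMod n), (1 - C (psi n (a * z)) * X) := by
    rw [← Finset.mul_prod_erase Finset.univ _ (Finset.mem_univ (0 : ZMod n))]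
    congr 1
    unfold psi
    simp
  have hgeom : (1 - X ^ s : ℂ[X]) = (1 - X) * ∑ i ∈ range s, X ^ i := by
    rw [mul_comm, geom_sum_mul_neg]
  have hmain : ∏ z ∈ Finset.univ.erase (0 : ZMod n), (1 - C (psi n (a * z)) * X) =
      (∑ i ∈ range s, X ^ i) * (1 - X ^ s : ℂ[X]) ^ (n / s - 1) := by
    have hne : (1 - X : ℂ[X]) ≠ 0 := by
      intro h
      have := congrArg (fun p : ℂ[X] => p.coeff 0) h
      simp at this
    apply mul_left_cancel₀ hne
    rw [← hsplit, hprod, ← mul_assoc, ← hgeom]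
    conv_lhs => rw [← Nat.sub_add_cancel hN, pow_succ']
  have h1 := coeff_prod_one_sub (R := ℂ) (Finset.univ.erase (0 : ZMod n)) (fun z => psi n (a * z)) t
  rw [hmain, coeff_geom _ _ _ hspos] at h1
  have h2 : Es n t a = ∑ T ∈ (Finset.univ.erase (0 : ZMod n)).powersetCard t,
      ∏ z ∈ T, psi n (a * z) := by
    unfold Es
    exact Finset.sum_congr rfl fun T _ => psi_sum n a T
  rw [h2]
  have h3 : ((-1 : ℂ) ^ t) * (-1) ^ t = 1 := by
    rw [← mul_pow]; simp
  unfold ep
  push_cast
  rw [h1, ← mul_assoc, h3, one_mul]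

end Pool.Agent.Helper86.SD
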