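import Pool.Agent.Helper71.SD.Goals

/-! PACKET ESQ of the disproof of MP_dcced1_gt. -/

set_option autoImplicit false

namespace Pool.Agent.Helper71.SD.ESQ

open Pool.Agent.Helper71.AHtpy SimpleGraph

theorem card_tog (a : E) (S : Finset E) :
    S.card ≤ (tog a S).card + 1 ∧ (tog a S).card ≤ S.card + 1 := by
  by_cases h : a ∈ S
  · have h1 : tog a S = S.erase a := by
      ext i
      rw [mem_tog, Finset.mem_erase]
      constructor
      · rintro (⟨h1, h2⟩ | ⟨rfl, h2⟩)
        · exact ⟨h2, h1⟩
        · exact absurd h h2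
      · rintro ⟨h1, h2⟩
        exact Or.inl ⟨h2, h1⟩
    rw [h1]
    have := Finset.card_erase_add_one h
    omega
  · have h1 : tog a S = insert a S := by
      ext i
      rw [mem_tog, Finset.mem_insert]
      constructor
      · rintro (⟨h1, h2⟩ | ⟨rfl, h2⟩)
        · exact Or.inr h1
        · exact Or.inl rfl
      · rintro (rfl | h2)
        · exact Or.inr ⟨rfl, h⟩
        · refine Or.inl ⟨h2, ?_⟩
          rintro rfl
          exact h h2
    rw [h1, Finset.card_insert_of_notMem h]
    omega

theorem bd_tog {w : ℕ} {S : Finset E} (h : Bd w S) (a : E) : Bd (w + 1) (tog a S) := by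
  have := card_tog a S
  unfold Bd at *
  omega

theorem bd_mono {w w' : ℕ} {S : Finset E} (h : Bd w S) (hw : w ≤ w') : Bd w' S := by
  unfold Bd at *
  omega

theorem tog_comm (a b : E) (S : Finset E) : tog a (tog b S) = tog b (tog a S) := by
  simp only [tog]
  exact symmDiff_right_comm _ _ _

theorem esq : S_ESQ := by
  intro δ hR v a b hv hab hδv hδw hδc hne
  have hab' : (some a : Option E) ≠ some b := fun h => hab (Option.some.inj h)
  have B2 : ∀ x, Bd 3 (tog x v) := fun x => bd_tog hv x
  have B3 : ∀ x y, Bd 4 (tog y (tog x v)) := fun x y => bd_tog (B2 x) y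
  have B4 : ∀ x y z, Bd 5 (tog z (tog y (tog x v))) := fun x y z => bd_tog (B3 x y) z
  have B5 : ∀ x y z u, Bd 6 (tog u (tog z (tog y (tog x v)))) := fun x y z u => bd_tog (B4 x y z) u
  have M : ∀ {w : ℕ} {S : Finset E}, Bd w S → w ≤ 6 → Bd 6 S := fun h hw => bd_mono h hw
  -- (1)
  have h1 : δ (tog b (tog a v)) = some b := by
    rcases hR (tog a v) b (M (B2 a) (by norm_num)) (M (B3 a b) (by norm_num)) with h | h | h
    · exact absurd (by rw [← h, hδw]) hne
    · rw [hδw] at h; exact absurd h hab'
    · exact h
  -- (2)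
  have h2 : ∀ c, c ≠ a → c ≠ b → δ (tog c (tog b (tog a v))) = some b := by
    intro c hca hcb
    have hca' : (some c : Option E) ≠ some a := fun h => hca (Option.some.inj h)
    have hcb' : (some c : Option E) ≠ some b := fun h => hcb (Option.some.inj h)
    have hr1 := hR (tog b (tog a v)) c (M (B3 a b) (by norm_num)) (M (B4 a b c) (by norm_num))
    have hr2 := hR (tog c (tog a v)) b (M (B3 a c) (by norm_num)) (M (B4 a c b) (by norm_num))
    rw [hδc c hca hcb, tog_comm b c] at hr2
    rw [h1] at hr1
    rcases hr1 with h | h | h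
    · exact h.symm
    · exact absurd h.symm hcb'
    · rw [h] at hr2
      rcases hr2 with h' | h' | h'
      · exact absurd h'.symm hca'
      · exact absurd h' hab'
      · exact absurd h' hcb'
  refine ⟨h1, h2, ?_⟩
  -- (3)
  have e3 : tog a (tog b (tog a v)) = tog b v := by
    rw [tog_comm b a, tog_tog]
  have hr3 := hR (tog b (tog a v)) a (M (B3 a b) (by norm_num)) (M (B4 a b a) (by norm_num))
  rw [e3, h1] at hr3
  rcases hr3 with h | h | h
  · exact Or.inl h.symm
  · exact absurd h.symm hab'
  · refine Or.inr ⟨h, ?_⟩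
    intro c hca hcb
    have hca' : (some c : Option E) ≠ some a := fun h => hca (Option.some.inj h)
    have hcb' : (some c : Option E) ≠ some b := fun h => hcb (Option.some.inj h)
    -- x = tog c (tog b v)
    have hx1 := hR (tog b v) c (M (B2 b) (by norm_num)) (M (B3 b c) (by norm_num))
    rw [h] at hx1
    have hx2 := hR (tog c (tog b (tog a v))) a (M (B4 a b c) (by norm_num))
      (M (B5 a b c a) (by norm_num))
    rw [tog_comm a c, e3, h2 c hca hcb] at hx2
    have hx : δ (tog c (tog b v)) = some a := by
      rcases hx1 with h' | h' | h'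
      · exact h'.symm
      · exact absurd h'.symm hca'
      · rw [h'] at hx2
        rcases hx2 with h'' | h'' | h''
        · exact absurd h''.symm hcb'
        · exact absurd h''.symm hab'
        · exact absurd h'' hca'
    refine ⟨?_, hx⟩
    have hy1 := hR v c (M hv (by norm_num)) (M (B2 c) (by norm_num))
    rw [hδv] at hy1
    have hy2 := hR (tog c (tog b v)) b (M (B3 b c) (by norm_num)) (M (B4 b c b) (by norm_num))
    rw [hx, tog_comm b c, tog_tog] at hy2
    rcases hy1 with h' | h' | h'
    · exact h'.symm
    · exact absurd h'.symm hcb'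
    · rw [h'] at hy2
      rcases hy2 with h'' | h'' | h''
      · exact absurd h''.symm hca'
      · exact absurd h'' hab'
      · exact absurd h'' hcb'

end Pool.Agent.Helper71.SD.ESQ
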