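import Pool.Agent.Helper71.SD.Goals

/-! PACKET THE of the disproof of MP_dcced1_gt. -/

set_option autoImplicit false

namespace Pool.Agent.Helper71.SD.THE

open Pool.Agent.Helper71.AHtpy SimpleGraph

theorem card_tog (a : E) (S : Finset E) :
    S.card ≤ (tog a S).card + 1 ∧ (tog a S).card ≤ S.card + 1 := by
  by_cases h : a ∈ S
  · have h1 : tog a S = S.erase a := by
      ext i
      rw [mem_tog, Finset.mem_erase]
      constructor
      · rintro (⟨h1, h2⟩ | ⟨rfl, h2⟩)
        · exact ⟨h2, h1⟩
        · exact absurd h h2
      · rintro ⟨h1, h2⟩
        exact Or.inl ⟨h2, h1⟩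
    rw [h1]
    have := Finset.card_erase_add_one h
    omega
  · have h1 : tog a S = insert a S := by
      ext i
      rw [mem_tog, Finset.mem_insert]
      constructor
      · rintro (⟨h1, h2⟩ | ⟨rfl, h2⟩)
        · exact Or.inr h1
        · exact Or.inl rfl
      · rintro (rfl | h2)
        · exact Or.inr ⟨rfl, h⟩
        · refine Or.inl ⟨h2, ?_⟩
          rintro rfl
          exact h h2
    rw [h1, Finset.card_insert_of_notMem h]
    omega

theorem bd_tog {w : ℕ} {S : Finset E} (h : Bd w S) (a : E) : Bd (w + 1) (tog a S) := by
  have := card_tog a S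
  unfold Bd at *
  omega

theorem bd_mono {w w' : ℕ} {S : Finset E} (h : Bd w S) (hw : w ≤ w') : Bd w' S := by
  unfold Bd at *
  omega

theorem tog_comm (a b : E) (S : Finset E) : tog a (tog b S) = tog b (tog a S) := by
  simp only [tog]
  exact symmDiff_right_comm _ _ _

theorem exists_mid : ∃ S : Finset E, Bd 2 S := by
  obtain ⟨S, _, hS⟩ := Finset.exists_subset_card_eq (s := (Finset.univ : Finset E)) (n := 30)
    (by simp)
  exact ⟨S, by unfold Bd; omega⟩

theorem the : S_ECONST → S_ETOP → S_ESQ → S_EFLAT → S_EROT → S_THE := by
  intro hEC hET hES hEF hER δ hR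
  by_cases hc : ∀ S a, Bd 2 S → some a ≠ δ S → δ (tog a S) ≠ some a
  · have hconst := hEC δ hR hc
    obtain ⟨S₀, hS₀⟩ := exists_mid
    rcases hd : δ S₀ with _ | i
    · left
      intro S hS
      rw [hconst S S₀ hS hS₀, hd]
    · right; left
      exact ⟨i, fun S hS => by rw [hconst S S₀ hS hS₀, hd]⟩
  · push Not at hc
    obtain ⟨v, a₀, hv, hne, heq⟩ := hc
    obtain ⟨a, ha, haw, hac⟩ := hET δ hR v a₀ hv hne heq
    have B2 : ∀ x, Bd 3 (tog x v) := fun x => bd_tog hv x
    have B3 : ∀ x y, Bd 4 (tog y (tog x v)) := fun x y => bd_tog (B2 x) y
    -- the flat conclusion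
    have flat : ∀ (w : Finset E) (i : E), Bd 4 w → δ w = some i →
        (∀ c, c ≠ i → δ (tog c w) = some i) →
        ∃ i e, ∀ S, Bd 2 S → decide (i ∈ S) = e → δ S = some i := by
      intro w i hw hi hci
      refine ⟨i, decide (i ∈ w), fun S hS he => ?_⟩
      refine hEF δ hR w i hw hi hci S (bd_mono hS (by norm_num)) ?_
      exact decide_eq_decide.1 he
    by_cases hflat : ∀ c, c ≠ a → δ (tog c (tog a v)) = some a
    · right; right; right
      exact flat (tog a v) a (bd_mono (B2 a) (by norm_num)) haw hflat
    · -- δ v = some b
      rcases hd : δ v with _ | b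
      · exfalso
        apply hflat
        intro c hca
        exact hac c hca (by rw [hd]; exact Option.some_ne_none c)
      · rw [hd] at ha hac
        have hab : a ≠ b := fun h => ha (by rw [h])
        have hac' : ∀ c, c ≠ a → c ≠ b → δ (tog c (tog a v)) = some a := fun c h1 h2 =>
          hac c h1 (fun h => h2 (Option.some.inj h))
        have hbw : δ (tog b (tog a v)) ≠ some a := by
          intro hb
          apply hflat
          intro c hca
          by_cases hcb : c = b
          · rw [hcb]; exact hb
          · exact hac' c hca hcb
        obtain ⟨h1, h2, h3⟩ := hES δ hR v a b hv hab hd haw hac' hbw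
        have e3 : tog a (tog b (tog a v)) = tog b v := by
          rw [tog_comm b a, tog_tog]
        rcases h3 with h3 | ⟨h3, h4⟩
        · right; right; right
          refine flat (tog b (tog a v)) b (B3 a b) h1 ?_
          intro c hcb
          by_cases hca : c = a
          · rw [hca, e3]; exact h3
          · exact h2 c hca hcb
        · have hrot := hER δ hR v a b hv hab hd haw h3 h1 (fun c hca hcb =>
            ⟨(h4 c hca hcb).1, hac' c hca hcb, (h4 c hca hcb).2, h2 c hca hcb⟩)
          right; right; left
          by_cases hav : (a ∈ v ↔ b ∈ v)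
          · refine ⟨b, a, hab.symm, fun S hS => ?_⟩
            have := hrot S (bd_mono hS (by norm_num))
            constructor
            · intro h
              apply this.1
              tauto
            · intro h
              apply this.2
              tauto
          · refine ⟨a, b, hab, fun S hS => ?_⟩
            have := hrot S (bd_mono hS (by norm_num))
            constructor
            · intro h
              apply this.2
              tauto
            · intro h
              apply this.1
              tauto

end Pool.Agent.Helper71.SD.THE
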